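import Pool.Agent.Q94.FRB.Defs
import Pool.Agent.Q94.FRB.Walk

/-! Balanced fractional revival between vertices that are not cospectral. -/

set_option autoImplicit false

namespace Pool.Agent.Results.MP_74778d_co.BalancedNoncospectral

open Pool.Agent.Q94.FRB

/-- There is a finite simple graph with two distinct vertices that are not cospectral, with
balanced fractional revival from the first to the second at some positive time. -/
theorem result : ∃ (V : Type) (_ : Fintype V) (_ : DecidableEq V) (X : SimpleGraph V)
    (_ : DecidableRel X.Adj) (a b : V), a ≠ b ∧ ¬ Cospectral X a b ∧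
      ∃ τ : ℝ, 0 < τ ∧ BalancedFR X a b τ :=
  ⟨VV sz, inferInstance, inferInstance, G0, inferInstance, va, vb, va_ne_vb, not_cospectral,
    tm, tm_pos, balanced⟩

end Pool.Agent.Results.MP_74778d_co.BalancedNoncospectral
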